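import Pool.Agent.Q282.AX.Main

/-!
# The Sato–Tate law over all finite extensions simultaneously for almost all hyperelliptic Jacobians over a number field

Let `F` be a number field, `g ≥ 1`, and let `J` be the Jacobian of the curve `C : y ^ 2 = f(x)`, where
`f = x ^ (2 g + 1) + ∑ t_l x ^ l` with `t_l` in the ring of integers of `F`; for `g = 2` it is an abelian surface, with the Sato-Tate
group `USp(4)` for a general `f`. For a finite extension `K` of `F` and a prime `v` of `K` of good reduction the class `x_v` of `USp(2g)` is given by the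
normalised `L`-polynomial `det (1 - T x_v) = ∑ a_n(v) T ^ n`,
`∑ a_n(v) √q ^ n T ^ n = exp (∑ (#C(F_{q ^ r}) - q ^ r - 1) T ^ r / r)`, `q = N v`.

The integral of `∏ a_{i_j}` over `USp(2g)`, for `∑ i_j ≤ 2 g + 1`, is (up to the sign `(-1) ^ (∑ i_j)`, which is `1` if it is not
zero) the multiplicity of the trivial representation in the product of the exterior powers `Λ ^ {i_j}` of the standard
representation, which is the number of the symmetric matrices with entries in `ℕ`, even entries on the diagonal and row sums `i_j`.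
The monomials `∏ a_{i_j}` with `∑ i_j ≤ 2 g + 1` span the space of the characters of `USp(2g)` of degree at most `2 g + 1`.

It is proved that for almost all curves the averages of all these class functions over the primes `v` of `K` of norm at most `x`
are the integrals over `USp(2g)`, with a square-root error, simultaneously for all finite extensions `K` of `F` of arbitrary
sets `W x` of at most `x ^ B` extensions (without a bound for their degrees), also with weights at the primes of `K`.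

Proof. The primes `v` of degree at least two over `ℚ` are negligible. The curve is defined over `F`, hence at a prime `v` of `K` of
degree one its reduction is that of a random polynomial over the prime field, as the map from the ring of integers of `F` to
the residue field is surjective. The local means are computed with orthogonality (`Q282.HL`), and the law of large numbers is that
for bounded functions of the residues of vectors of integers which arise by changing few digits (`Pool.Agent.Y57.FD.lawF`).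
-/

set_option autoImplicit false

namespace Pool.Agent.Results.MP_6dc561_nt.AllExtensions

open Finset NumberField IsDedekindDomain Polynomial
open Q282.JK (Good)
open Q282.AX (gpol haar coef exceptions)
open Pool.Agent.Y57.FD (digit)

/-- A test: a finite extension `K` of the field `F` inside its algebraic closure, and weights in `[-1, 1]` at the primes of `K`. -/
structure Test (F : Type) [Field F] where
  /-- the extension -/
  K : IntermediateField F (AlgebraicClosure F)
  /-- it is finite -/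
  finite : FiniteDimensional F K
  /-- the weights -/
  weight : HeightOneSpectrum (𝓞 K) → ℝ
  /-- they are bounded by one -/
  weight_le : ∀ v, |weight v| ≤ 1

instance instNF {F : Type} [Field F] [NumberField F] (τ : Test F) : NumberField τ.K :=
  haveI := τ.finite
  NumberField.of_module_finite F τ.K

/-- A polynomial over the ring of integers of `F`, regarded as a polynomial over the ring of integers of the extension. -/
noncomputable def Test.base {F : Type} [Field F] (τ : Test F) (f : (𝓞 F)[X]) : (𝓞 τ.K)[X] :=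
  f.map (algebraMap (𝓞 F) (𝓞 τ.K))

/-- The weighted sum of `∏ a_{i_j}(v)`, minus the integral of `∏ a_{i_j}` over `USp(2g)`, over the primes `v` of `K` of norm at most
`x` which do not divide two and modulo which `f` is squarefree. -/
noncomputable def deviation {K : Type} [Field K] [NumberField K] (f : (𝓞 K)[X]) (w : HeightOneSpectrum (𝓞 K) → ℝ) (x : ℕ)
    {l : ℕ} (i : Fin l → ℕ) : ℝ :=
  ∑ᶠ v ∈ {v | Good f v ∧ Ideal.absNorm v.asIdeal ≤ x}, w v * (∏ j, coef f v (i j) - haar i)

/-- For all monomials `∏ a_{i_j}` of degree `∑ i_j ≤ 2 g + 1` the weighted sum of `∏ a_{i_j}(v)`, minus the integral of `∏ a_{i_j}` over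
`USp(2g)`, over the primes `v` of `K` of good reduction of norm at most `x` is at most `[K : ℚ] x ^ (1 / 2 + δ)`. -/
def SatoTate {F : Type} [Field F] [NumberField F] (g : ℕ) (δ : ℝ) (x : ℕ) (τ : Test F) (f : (𝓞 F)[X]) : Prop :=
  ∀ i : Fin (2 * g + 1) → ℕ, ∑ j, i j ≤ 2 * g + 1 →
    |deviation (τ.base f) τ.weight x i| ≤ Module.finrank ℚ τ.K * (x : ℝ) ^ (1 / 2 + δ)

/-- The indices of the coordinates: the pair `(i, j)` is the index of the coordinate number `j` of the coefficient of `X ^ i`. -/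
def Coord (F : Type) [Field F] [NumberField F] (g : ℕ) : Type := Fin (2 * g + 1) × Fin (Module.finrank ℚ F)

noncomputable instance instFintypeCoord (F : Type) [Field F] [NumberField F] (g : ℕ) : Fintype (Coord F g) :=
  inferInstanceAs (Fintype (Fin (2 * g + 1) × Fin (Module.finrank ℚ F)))

noncomputable instance instDecCoord (F : Type) [Field F] [NumberField F] (g : ℕ) : DecidableEq (Coord F g) :=
  inferInstanceAs (DecidableEq (Fin (2 * g + 1) × Fin (Module.finrank ℚ F)))

/-- The polynomial `X ^ (2 g + 1) + ∑ t_i X ^ i` with `t_i = ∑ m (i, j) e_j`. -/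
noncomputable def curve {F : Type} [Field F] [NumberField F] {g : ℕ} (e : Module.Basis (Fin (Module.finrank ℚ F)) ℤ (𝓞 F))
    (m : Coord F g → ℕ) : (𝓞 F)[X] :=
  gpol (Q282.GK.comb e (fun l : Fin (2 * g + 1) × Fin (Module.finrank ℚ F) => (m l : ℤ)))

lemma sum_eq {K : Type} [Field K] [NumberField K] (f : (𝓞 K)[X]) (w : HeightOneSpectrum (𝓞 K) → ℝ) (x : ℕ)
    {l : ℕ} (i : Fin l → ℕ) :
    deviation f w x i = ∑ v ∈ Q282.GK.SX K x, w v * Q282.AX.val f i v := by
  classical
  have h1 : ∀ v ∈ Q282.GK.SX K x, w v * Q282.AX.val f i v =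
      if Good f v then w v * (∏ j, coef f v (i j) - haar i) else 0 := by
    intro v _
    unfold Q282.AX.val
    split_ifs
    · rfl
    · rw [mul_zero]
  rw [sum_congr rfl h1, ← sum_filter]
  unfold deviation
  refine finsum_mem_eq_sum_of_inter_support_eq _ ?_
  ext v
  simp only [Set.mem_inter_iff, coe_filter, Q282.GK.mem_SX, Set.mem_ofPred_eq]
  tauto

theorem main_raw (F : Type) [Field F] [NumberField F] (g b : ℕ) (hb : 2 ≤ b) (δ : ℝ) (hδ : 0 < δ) (A B : ℕ) :
    ∃ c : ℝ, 0 < c ∧ ∃ y₀ : ℕ, ∀ (e : Module.Basis (Fin (Module.finrank ℚ F)) ℤ (𝓞 F))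
    (k r : Fin (2 * g + 1) × Fin (Module.finrank ℚ F) → ℕ) (y : ℕ), (∀ l, 2 * r l ≤ k l) → y₀ ≤ y →
    ∀ N : Fin (2 * g + 1) × Fin (Module.finrank ℚ F) → ℕ, (∀ l, N l < b ^ k l) →
    ∀ d : Fin (2 * g + 1) × Fin (Module.finrank ℚ F) → ℕ → ℕ, (∀ l j, d l j < b ∧ d l j ≠ digit b j (N l)) →
    ∀ W : ℕ → Set (Test F), (∀ x, (W x).Finite ∧ (W x).ncard ≤ x ^ B) →
      (exceptions b k r N d (fun m => ∀ x : ℕ, y ≤ x → (∀ l, (x : ℝ) ≤ Real.exp (c * r l)) → ∀ τ ∈ W x,
        SatoTate g δ x τ (gpol (Q282.GK.comb e (fun l => (m l : ℤ))))) : ℝ) ≤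
        1 / (y : ℝ) ^ A * ∏ l, ((k l).choose (r l) : ℝ) := by
  classical
  -- the finite set of the exponents
  obtain ⟨J, hJ⟩ : ∃ J : Finset (Fin (2 * g + 1) → ℕ), J =
    (Fintype.piFinset fun _ => range (2 * g + 2)).filter fun i => ∑ j, i j ≤ 2 * g + 1 := ⟨_, rfl⟩
  have hmemJ : ∀ i : Fin (2 * g + 1) → ℕ, i ∈ J ↔ ∑ j, i j ≤ 2 * g + 1 := by
    intro i
    rw [hJ, mem_filter, Fintype.mem_piFinset]
    refine ⟨fun h => h.2, fun h => ⟨fun j => ?_, h⟩⟩
    have h1 : i j ≤ ∑ j, i j := single_le_sum (fun _ _ => Nat.zero_le _) (mem_univ j)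
    rw [mem_range]
    omega
  -- the constants of the local means
  have hch : ∀ i : Fin (2 * g + 1) → ℕ, ∃ C : ℝ, 0 ≤ C ∧ (∑ j, i j ≤ 2 * g + 1 →
      ∀ (k : Type) [Field k] [Fintype k] [DecidableEq k],
      |(∑ u : Fin (2 * g + 1) → k, Q282.AX.locS i u) / (Fintype.card k : ℝ) ^ (2 * g + 1)| ≤ C / Fintype.card k) := by
    intro i
    by_cases hi : ∑ j, i j ≤ 2 * g + 1
    · obtain ⟨C, hC0, hC⟩ := Q282.AX.locS_mean g i hi
      exact ⟨C, hC0, fun _ => hC⟩
    · exact ⟨0, le_rfl, fun h1 => absurd h1 hi⟩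
  choose C hC0 hC using hch
  obtain ⟨C', hC'⟩ : ∃ C' : ℝ, C' = ∑ i ∈ J, C i := ⟨_, rfl⟩
  have hC'0 : 0 ≤ C' := by
    rw [hC']
    exact sum_nonneg fun i _ => hC0 i
  obtain ⟨M, hM⟩ : ∃ M : ℝ, M = 1 + ∑ i ∈ J, ((5 * (2 * g + 1) : ℝ) ^ (∑ j, i j) + (haar i : ℝ)) := ⟨_, rfl⟩
  have hMj : ∀ i ∈ J, (5 * (2 * g + 1) : ℝ) ^ (∑ j, i j) + (haar i : ℝ) ≤ M := by
    intro i hi
    have h1 : (5 * (2 * g + 1) : ℝ) ^ (∑ j, i j) + (haar i : ℝ) ≤
        ∑ i ∈ J, ((5 * (2 * g + 1) : ℝ) ^ (∑ j, i j) + (haar i : ℝ)) :=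
      single_le_sum (f := fun i : Fin (2 * g + 1) → ℕ => (5 * (2 * g + 1) : ℝ) ^ (∑ j, i j) + (haar i : ℝ))
        (fun i _ => by positivity) hi
    linarith
  have hM1 : 1 ≤ M := by
    rw [hM]
    have : 0 ≤ ∑ i ∈ J, ((5 * (2 * g + 1) : ℝ) ^ (∑ j, i j) + (haar i : ℝ)) := sum_nonneg fun i _ => by positivity
    linarith
  have hn0 : 0 < Module.finrank ℚ F := Module.finrank_pos
  have : Nonempty (Fin (2 * g + 1) × Fin (Module.finrank ℚ F)) := ⟨(0, ⟨0, hn0⟩)⟩
  obtain ⟨c, hc, y₁, h⟩ := Q282.AX.law_dig (Fin (2 * g + 1) × Fin (Module.finrank ℚ F)) b hb (δ / 2) (by positivity) A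
    (B + J.card) M C' hM1 hC'0
  have hev : ∀ᶠ x : ℕ in Filter.atTop, (1 : ℝ) + M ≤ (x : ℝ) ^ (δ / 2) :=
    tendsto_natCast_atTop_atTop.eventually ((tendsto_rpow_atTop (by positivity : 0 < δ / 2)).eventually
      (Filter.eventually_ge_atTop _))
  obtain ⟨n₁, hn₁⟩ := Filter.eventually_atTop.1 hev
  refine ⟨c, hc, y₁ + n₁ + 2, fun e k r y hrk hy N hN d hd W hW => ?_⟩
  have hWf : ∀ x, (W x).Finite := fun x => (hW x).1
  have hb' : ∀ x : 𝓞 F, ∃ a : Fin (Module.finrank ℚ F) → ℤ, x = ∑ j, (a j : 𝓞 F) * e j := by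
    intro x
    refine ⟨fun j => e.repr x j, ?_⟩
    have h1 := e.sum_repr x
    rw [← h1]
    refine sum_congr rfl fun j _ => ?_
    rw [h1, zsmul_eq_mul]
  refine h k r y hrk (by omega) N hN d hd (Test F × (Fin (2 * g + 1) → ℕ)) (fun x => (hWf x).toFinset ×ˢ J) ?_
    (fun l p u => if l.2 ∈ J then Q282.AX.hr (algebraMap (𝓞 F) (𝓞 l.1.K)) l.1.weight l.2 e p u else 0) ?_ ?_ _ ?_
  · intro x hx
    rw [card_product, ← Set.ncard_eq_toFinset_card _ (hWf x), pow_add]
    refine Nat.mul_le_mul (hW x).2 ?_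
    calc J.card ≤ 2 ^ J.card := (Nat.lt_two_pow_self).le
      _ ≤ x ^ J.card := Nat.pow_le_pow_left hx _
  · intro l p _ u
    show |(if l.2 ∈ J then _ else 0)| ≤ M
    split_ifs with h1
    · exact (Q282.AX.hr_le _ _ l.1.weight_le l.2 e p u).trans (hMj _ h1)
    · rw [abs_zero]
      linarith
  · intro l p hp
    have hp0 : (0 : ℝ) < p := by exact_mod_cast hp.out.pos
    by_cases h1 : l.2 ∈ J
    · have e1 : (∑ u : Fin (2 * g + 1) × Fin (Module.finrank ℚ F) → ZMod p,
          if l.2 ∈ J then Q282.AX.hr (algebraMap (𝓞 F) (𝓞 l.1.K)) l.1.weight l.2 e p u else 0) =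
          ∑ u : Fin (2 * g + 1) × Fin (Module.finrank ℚ F) → ZMod p,
            Q282.AX.hr (algebraMap (𝓞 F) (𝓞 l.1.K)) l.1.weight l.2 e p u :=
        sum_congr rfl fun u _ => if_pos h1
      rw [e1]
      refine (Q282.AX.hr_mean _ _ l.1.weight_le l.2 e hb' (C l.2) (hC0 _) (hC _ ((hmemJ _).1 h1)) p).trans ?_
      refine div_le_div_of_nonneg_right ?_ hp0.le
      rw [hC']
      exact single_le_sum (f := C) (fun j _ => hC0 j) h1
    · have e1 : (∑ u : Fin (2 * g + 1) × Fin (Module.finrank ℚ F) → ZMod p,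
          if l.2 ∈ J then Q282.AX.hr (algebraMap (𝓞 F) (𝓞 l.1.K)) l.1.weight l.2 e p u else 0) = 0 :=
        sum_eq_zero fun u _ => if_neg h1
      rw [e1, zero_div, abs_zero]
      positivity
  · intro m hm x hyx hxr τ hτ i hi
    have hiJ : i ∈ J := (hmemJ i).2 hi
    have h1 := hm x hyx hxr (τ, i) (by
      rw [mem_product, Set.Finite.mem_toFinset]
      exact ⟨hτ, hiJ⟩)
    have hD : (0 : ℝ) < Module.finrank ℚ τ.K := by exact_mod_cast (Module.finrank_pos : 0 < Module.finrank ℚ τ.K)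
    have hx1 : (1 : ℝ) ≤ x := by exact_mod_cast (by omega : 1 ≤ x)
    have hx0 : (0 : ℝ) < x := by linarith
    have h2 : ∑ p ∈ Q282.BP.PP x, (if i ∈ J then Q282.AX.hr (algebraMap (𝓞 F) (𝓞 τ.K)) τ.weight i e p
        (fun l => (m l : ZMod p)) else 0) = (∑ p ∈ Q282.BP.PP x, Q282.GK.ghd (fun v => τ.weight v *
          Q282.AX.val ((gpol (Q282.GK.comb e (fun l => (m l : ℤ)))).map (algebraMap (𝓞 F) (𝓞 τ.K))) i v) 1 p) /
          Module.finrank ℚ τ.K := by
      rw [sum_div]
      refine sum_congr rfl fun p _ => ?_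
      rw [if_pos hiJ, Q282.AX.hr_cast]
    have h3 : |(∑ p ∈ Q282.BP.PP x, Q282.GK.ghd (fun v => τ.weight v *
          Q282.AX.val ((gpol (Q282.GK.comb e (fun l => (m l : ℤ)))).map (algebraMap (𝓞 F) (𝓞 τ.K))) i v) 1 p) /
          Module.finrank ℚ τ.K| ≤ (x : ℝ) ^ (1 / 2 + δ / 2) := by
      rw [← h2]
      exact h1
    rw [abs_div, abs_of_pos hD, div_le_iff₀ hD] at h3
    rw [sum_eq]
    refine (Q282.AX.sum_bound x M (by linarith) _ (Q282.AX.bd_w τ.weight τ.weight_le
      (fun v => (Q282.AX.val_le _ i _ v).trans (hMj i hiJ)))).trans ?_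
    have h4 : (x : ℝ) ^ (1 / 2 + δ) = (x : ℝ) ^ (1 / 2 + δ / 2) * (x : ℝ) ^ (δ / 2) := by
      rw [← Real.rpow_add hx0]
      congr 1
      ring
    have h5 : Real.sqrt x ≤ (x : ℝ) ^ (1 / 2 + δ / 2) := by
      rw [Real.sqrt_eq_rpow]
      exact Real.rpow_le_rpow_of_exponent_le hx1 (by linarith)
    have h6 := hn₁ x (by omega)
    obtain ⟨R, hR⟩ : ∃ R : ℝ, R = (x : ℝ) ^ (1 / 2 + δ / 2) := ⟨_, rfl⟩
    have hR0 : 0 ≤ R := by
      rw [hR]
      positivity
    rw [← hR] at h3 h4 h5
    rw [h4]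
    calc _ ≤ R * Module.finrank ℚ τ.K + Module.finrank ℚ τ.K * (M * R) :=
          add_le_add h3 (mul_le_mul_of_nonneg_left (mul_le_mul_of_nonneg_left h5 (by linarith)) hD.le)
      _ = Module.finrank ℚ τ.K * (R * (1 + M)) := by ring
      _ ≤ _ := mul_le_mul_of_nonneg_left (mul_le_mul_of_nonneg_left h6 hR0) hD.le

/-- Let `F` be a number field, `g ≥ 1`, `b ≥ 2`, `δ > 0` and `A, B ≥ 0`. There are `c > 0` and `y₀` such that the following holds for
all bases `e` of the ring of integers of `F` over `ℤ` and all integers `k l`, `r l`, `y` (`l = (i, j)`, `i = 0, ..., 2 g`,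
`j = 1, ..., [F : ℚ]`) with `2 r l ≤ k l` and `y ≥ y₀`.

Let `0 ≤ N l < b ^ k l` be arbitrary integers, prescribe for every position `j` a digit `d l j` different from the digit of `N l` in
base `b`, and let for every `x` an arbitrary set `W x` of at most `x ^ B` pairs of a finite extension `K` of `F` and weights in
`[-1, 1]` at the primes of `K` be given. If one chooses `r l` of the `k l` positions and replaces the digits of `N l` at these
positions, then for all but at most a proportion `1 / y ^ A` of the choices the numbers `m l` obtained and the curve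
`y ^ 2 = x ^ (2 g + 1) + ∑ t_i x ^ i` with `t_i = ∑ m (i, j) e_j` have the following property: for all integers `x` with
`y ≤ x ≤ exp (c r l)` for all `l`, all `(K, weights)` in `W x` and all monomials `∏ a_{i_j}` of degree `∑ i_j ≤ 2 g + 1` in the
coefficients of `det (1 - T x_v)` the weighted sum of the values, minus the integral over `USp(2g)`, over the primes `v` of `K` of
good reduction of norm at most `x` is at most `[K : ℚ] x ^ (1 / 2 + δ)`. -/
theorem result (F : Type) [Field F] [NumberField F] (g b : ℕ) (_hg : 1 ≤ g) (hb : 2 ≤ b) (δ : ℝ) (hδ : 0 < δ) (A B : ℕ) :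
    ∃ c : ℝ, 0 < c ∧ ∃ y₀ : ℕ, ∀ (e : Module.Basis (Fin (Module.finrank ℚ F)) ℤ (𝓞 F))
    (k r : Coord F g → ℕ) (y : ℕ), (∀ l, 2 * r l ≤ k l) → y₀ ≤ y →
    ∀ N : Coord F g → ℕ, (∀ l, N l < b ^ k l) → ∀ d : Coord F g → ℕ → ℕ, (∀ l j, d l j < b ∧ d l j ≠ digit b j (N l)) →
    ∀ W : ℕ → Set (Test F), (∀ x, (W x).Finite ∧ (W x).ncard ≤ x ^ B) →
      (exceptions b k r N d (fun m => ∀ x : ℕ, y ≤ x → (∀ l, (x : ℝ) ≤ Real.exp (c * r l)) → ∀ τ ∈ W x,
        SatoTate g δ x τ (curve e m)) : ℝ) ≤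
        1 / (y : ℝ) ^ A * ∏ l, ((k l).choose (r l) : ℝ) := by
  exact main_raw F g b hb δ hδ A B

end Pool.Agent.Results.MP_6dc561_nt.AllExtensions
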