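import Pool.Agent.Q255.SG.GK

/-!
# Sato-Tate in natural density and the moduli of the `L`-functions on the edge

Let `F` be a number field, `G` a compact group (the Sato-Tate group `ST_A` of an abelian surface
`A/F`), `S` a finite set of primes and `s(v)` classes of `G` for `v ∉ S` (the normalised Frobenius
classes of `A`).  For a continuous representation `τ` of `G` let
`L_S(s, τ) = ∏_{v ∉ S} det(1 - τ(s(v)) q_v^{-s})⁻¹`, `Re s > 1`.  It is known that continuous
continuation of all these functions to `Re s ≥ 1`, without zeros and poles for nontrivial irreducible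
`τ`, implies that the classes `s(v)` are equidistributed.

We prove an equivalence, without any hypothesis on the `L`-functions.  Every `L_S(s, τ)` has boundary
values `l_τ(t)`, different from zero, in all angles at the points `1 + it` of the edge outside a set of
Hausdorff dimension zero, and `log |l_τ|` is locally integrable.  The classes `s(v)` are equidistributed,
in the sense of the question (natural density), if and only if
`x ∫ log |l_τ(t)| φ(t) e^{ixt} dt → π m_τ φ(0)` as `x → ∞`, for all `τ` and all smooth `φ` with compact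
support, `m_τ` being the mean of `tr τ` on `G` (the multiplicity of the trivial representation).  If
`L_S(s, τ)` is continued only to the segment `|t| < λ` of the edge, then the means of `tr τ(s(v))` are,
for large `x`, at distance at most `C [F : ℚ] dim τ / λ` from the expected value, `C` absolute.
-/

set_option autoImplicit false

namespace Pool.Agent.Results.MP_6dc561_nt.EdgeAsymptotic

open Filter Topology MeasureTheory NumberField IsDedekindDomain

section Definitions
variable {F : Type} [Field F] [NumberField F]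

/-- The norm `q_v` of the prime `v`. -/
noncomputable def placeNorm (v : HeightOneSpectrum (𝓞 F)) : ℕ := Ideal.absNorm v.asIdeal

/-- The mean of `f(v)` over the primes `v ∉ S` with `q_v ≤ x`. -/
noncomputable def mean (S : Set (HeightOneSpectrum (𝓞 F))) (f : HeightOneSpectrum (𝓞 F) → ℂ)
    (x : ℕ) : ℂ :=
  (∑ᶠ v ∈ {v : HeightOneSpectrum (𝓞 F) | placeNorm v ≤ x ∧ v ∉ S}, f v) /
    (Nat.card {v : HeightOneSpectrum (𝓞 F) // placeNorm v ≤ x ∧ v ∉ S} : ℂ)

variable {G : Type} [Group G] {n : ℕ}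

open Classical in
/-- `L_S(z, τ) = ∏_{v ∉ S} det(1 - τ(s(v)) q_v^{-z})⁻¹`. -/
noncomputable def LFunction (S : Set (HeightOneSpectrum (𝓞 F))) (s : HeightOneSpectrum (𝓞 F) → G)
    (τ : G →* Matrix.unitaryGroup (Fin n) ℂ) (z : ℂ) : ℂ :=
  ∏' v : HeightOneSpectrum (𝓞 F), if v ∈ S then 1 else
    ((1 - ((placeNorm v : ℂ) ^ (-z)) • (τ (s v) : Matrix (Fin n) (Fin n) ℂ)).det)⁻¹

/-- The point `1 + it`. -/
noncomputable def edgePoint (t : ℝ) : ℂ := 1 + (t : ℂ) * Complex.I

/-- The angle `|z - (1 + it)| ≤ c (Re z - 1)` in the half-plane `Re z > 1`. -/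
def angle (t c : ℝ) : Set ℂ := {z : ℂ | 1 < z.re ∧ ‖z - edgePoint t‖ ≤ c * (z.re - 1)}

/-- `l` is the boundary function of `L` on the edge `Re z = 1`: outside a set of Hausdorff dimension
`0` its values are not zero, and they are the limits of `L` in every angle. -/
def IsBoundaryFunction (L : ℂ → ℂ) (l : ℝ → ℂ) : Prop :=
  ∃ T : Set ℝ, dimH T = 0 ∧ ∀ t : ℝ, t ∉ T → l t ≠ 0 ∧
    ∀ c : ℝ, Tendsto L (𝓝[angle t c] (edgePoint t)) (𝓝 (l t))

/-- Smooth functions with compact support. -/
def IsTest (φ : ℝ → ℂ) : Prop := ContDiff ℝ (⊤ : ℕ∞) φ ∧ HasCompactSupport φ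

/-- `∫ log |l(t)| φ(t) e^{ixt} dt`. -/
noncomputable def edgeIntegral (l φ : ℝ → ℂ) (x : ℝ) : ℂ :=
  ∫ t : ℝ, ((Real.log ‖l t‖ : ℝ) : ℂ) * (φ t * Complex.exp (Complex.I * x * t))

/-- The asymptotic formula `x ∫ log |l(t)| φ(t) e^{ixt} dt → π c φ(0)` as `x → ∞`, for all test
functions `φ` with support in the segment `|t| < λ`. -/
def EdgeAsymptoticOn (lam : ℝ) (l : ℝ → ℂ) (c : ℂ) : Prop := ∀ φ : ℝ → ℂ, IsTest φ →
  (∀ t ∈ tsupport φ, |t| < lam) →
  Tendsto (fun x : ℝ => (x : ℂ) * edgeIntegral l φ x) atTop (𝓝 (Real.pi * c * φ 0))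

/-- The asymptotic formula `x ∫ log |l(t)| φ(t) e^{ixt} dt → π c φ(0)` as `x → ∞`, for all test
functions `φ`. -/
def EdgeAsymptotic (l : ℝ → ℂ) (c : ℂ) : Prop := ∀ φ : ℝ → ℂ, IsTest φ →
  Tendsto (fun x : ℝ => (x : ℂ) * edgeIntegral l φ x) atTop (𝓝 (Real.pi * c * φ 0))

/-- `L` is continued to a neighbourhood of every point `1 + it`, `|t| < λ`, and `(z - 1)^m L(z)` is
holomorphic and not zero there: no zeros and poles except for a pole of order `m` at `1`. -/
def ContinuesOnSegment (L : ℂ → ℂ) (m : ℤ) (lam : ℝ) : Prop := ∀ t : ℝ, |t| < lam →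
  ∃ Φ : ℂ → ℂ, AnalyticAt ℂ Φ (edgePoint t) ∧ Φ (edgePoint t) ≠ 0 ∧
    ∀ᶠ z in 𝓝 (edgePoint t), 1 < z.re → L z * (z - 1) ^ m = Φ z

/-- The classes `s(v)`, `v ∉ S`, are equidistributed for the image of `μ` in the space of the
conjugacy classes of `G`: for every continuous class function `f` the means of `f(s(v))` over the
primes with `q_v ≤ x` tend to the integral of `f`. -/
def Equidistributed [TopologicalSpace G] [MeasurableSpace G] (μ : Measure G)
    (S : Set (HeightOneSpectrum (𝓞 F))) (s : HeightOneSpectrum (𝓞 F) → G) : Prop :=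
  ∀ f : G → ℂ, Continuous f → (∀ x g, f (g⁻¹ * x * g) = f x) →
    Tendsto (mean S fun v => f (s v)) atTop (𝓝 (∫ g, f g ∂μ))

end Definitions

/-! ## Translation -/

section Translation
variable {F : Type} [Field F] [NumberField F] {G : Type} [Group G] {n : ℕ}

theorem mean_eq (S : Set (HeightOneSpectrum (𝓞 F))) (f : HeightOneSpectrum (𝓞 F) → ℂ) :
    mean S f = Pool.Agent.Q255.SG.GK.gmean S f := by
  funext x
  have h1 : {v : HeightOneSpectrum (𝓞 F) | placeNorm v ≤ x ∧ v ∉ S} =
      ((Pool.Agent.Q255.SG.GK.GF S x : Finset _) : Set (HeightOneSpectrum (𝓞 F))) := by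
    ext v
    rw [Finset.mem_coe, Pool.Agent.Q255.SG.GK.mem_GF]
    rfl
  unfold mean Pool.Agent.Q255.SG.GK.gmean
  rw [finsum_mem_congr h1 (fun _ _ => rfl), finsum_mem_coe_finset]
  congr 2
  have h2 : Nat.card {v : HeightOneSpectrum (𝓞 F) // placeNorm v ≤ x ∧ v ∉ S} =
      Set.ncard {v : HeightOneSpectrum (𝓞 F) | placeNorm v ≤ x ∧ v ∉ S} := rfl
  rw [h2, h1, Set.ncard_coe_finset]

theorem L_eq (S : Set (HeightOneSpectrum (𝓞 F))) (s : HeightOneSpectrum (𝓞 F) → G)
    (τ : G →* Matrix.unitaryGroup (Fin n) ℂ) :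
    LFunction S s τ = Pool.Agent.Q255.SG.GK.LU S (fun v => τ (s v)) := rfl

theorem eq0_eq (t : ℝ) : Pool.Agent.Q255.SG.eq0 0 t = edgePoint t := by
  unfold Pool.Agent.Q255.SG.eq0 edgePoint
  norm_num

theorem bf_iff {L : ℂ → ℂ} {l : ℝ → ℂ} :
    IsBoundaryFunction L l ↔ Pool.Agent.Q255.SG.AngBd 0 L l := by
  unfold IsBoundaryFunction Pool.Agent.Q255.SG.AngBd angle
  simp only [eq0_eq, show (0 : ℝ) / 2 + 1 = 1 by norm_num]

theorem cont_iff {L : ℂ → ℂ} {m : ℤ} {lam : ℝ} : ContinuesOnSegment L m lam ↔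
    ∀ t0 : ℝ, |t0| < lam → ∃ Φ : ℂ → ℂ, AnalyticAt ℂ Φ (Pool.Agent.Q255.SG.eq0 0 t0) ∧
      Φ (Pool.Agent.Q255.SG.eq0 0 t0) ≠ 0 ∧ ∀ᶠ s in 𝓝 (Pool.Agent.Q255.SG.eq0 0 t0),
        (0 : ℝ) / 2 + 1 < s.re → L s * (s - Pool.Agent.Q255.SG.eq0 0 0) ^ m = Φ s := by
  have e0 : edgePoint 0 = 1 := by
    unfold edgePoint
    simp
  unfold ContinuesOnSegment
  simp only [eq0_eq, e0, show (0 : ℝ) / 2 + 1 = 1 by norm_num]

end Translation

/-- **Sato-Tate in natural density and the moduli on the edge.**  There is an absolute constant `C`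
such that for every number field `F`, every compact group `G` with normalised Haar measure `μ`, every
finite set `S` of primes and all classes `s(v)` (for an abelian surface `A/F`: `G = ST_A`, `S` the
primes of bad reduction and above `ℓ`, `s(v)` the Frobenius classes), for all continuous
representations `τ` of `G` and every boundary function `l` of `L_S(z, τ)`:

1. a boundary function exists, and `log |l|` is integrable against test functions;
2. for every `c`, the means of `tr τ(s(v))` over `q_v ≤ x` tend to `c` if and only if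
`x ∫ log |l(t)| φ(t) e^{ixt} dt → π c φ(0)` for all test functions `φ`;
3. if this is true for the `φ` with support in a segment `|t| < λ`, then for every `ε > 0` the mean of
`tr τ(s(v))` over `q_v ≤ x` is at distance at most `C dim(τ) [F : ℚ] / λ + ε` from `c` for all large
`x`;
4. the assumption of 3 is true for `c = m` if `L_S(z, τ)` is continued to the segment `|t| < λ` of the
edge, with a pole of order `m` at `1` and no other zeros and poles;
5. the classes `s(v)` are equidistributed if and only if the asymptotic formula of 2 holds for all `τ`,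
with `c = ∫ tr τ dμ`. -/
theorem result : ∃ C : ℝ, 0 < C ∧ ∀ (F : Type) [Field F] [NumberField F]
    (G : Type) [Group G] [TopologicalSpace G] [IsTopologicalGroup G] [CompactSpace G] [T2Space G]
    [MeasurableSpace G] [BorelSpace G] (μ : Measure G) [μ.IsHaarMeasure] [IsProbabilityMeasure μ]
    (S : Set (HeightOneSpectrum (𝓞 F))) (_ : S.Finite) (s : HeightOneSpectrum (𝓞 F) → G),
    (∀ (n : ℕ) (τ : G →* Matrix.unitaryGroup (Fin n) ℂ), Continuous τ →
      (∃ l, IsBoundaryFunction (LFunction S s τ) l) ∧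
      ∀ l, IsBoundaryFunction (LFunction S s τ) l →
        (∀ φ : ℝ → ℂ, IsTest φ → ∀ x : ℝ, Integrable fun t : ℝ =>
          ((Real.log ‖l t‖ : ℝ) : ℂ) * (φ t * Complex.exp (Complex.I * x * t))) ∧
        (∀ c : ℂ, Tendsto (mean S fun v => (τ (s v) : Matrix (Fin n) (Fin n) ℂ).trace) atTop
          (𝓝 c) ↔ EdgeAsymptotic l c) ∧
        (∀ (c : ℂ) (lam : ℝ), 0 < lam → EdgeAsymptoticOn lam l c → ∀ ε : ℝ, 0 < ε →
          ∀ᶠ x : ℕ in atTop,
            ‖mean S (fun v => (τ (s v) : Matrix (Fin n) (Fin n) ℂ).trace) x - c‖ ≤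
              C * (n * Module.finrank ℚ F) / lam + ε) ∧
        ∀ (m : ℤ) (lam : ℝ), ContinuesOnSegment (LFunction S s τ) m lam →
          EdgeAsymptoticOn lam l m) ∧
    (Equidistributed μ S s ↔ ∀ (n : ℕ) (τ : G →* Matrix.unitaryGroup (Fin n) ℂ), Continuous τ →
      ∀ l, IsBoundaryFunction (LFunction S s τ) l →
        EdgeAsymptotic l (∫ g, (τ g : Matrix (Fin n) (Fin n) ℂ).trace ∂μ)) := by
  obtain ⟨C, hC, hwin⟩ := Pool.Agent.Q255.SG.GK.u_window
  refine ⟨C, hC, fun F _ _ G _ _ _ _ _ _ _ μ _ _ S hS s => ⟨?_, ?_⟩⟩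
  · intro n τ _
    refine ⟨?_, fun l hl => ⟨fun φ hφ x => ?_, fun c => ?_, fun c lam hlam hc ε hε => ?_,
      fun m lam hcont φ hφ hs => ?_⟩⟩
    · obtain ⟨l, hl⟩ := Pool.Agent.Q255.SG.GK.u_bdry S (fun v => τ (s v))
      exact ⟨l, bf_iff.2 hl⟩
    · exact Pool.Agent.Q255.SG.GK.u_int S (fun v => τ (s v)) (bf_iff.1 hl) hφ x
    · rw [mean_eq]
      exact Pool.Agent.Q255.SG.GK.u_iff hS (bf_iff.1 hl) c
    · rw [mean_eq]
      exact hwin F n S hS (fun v => τ (s v)) l (bf_iff.1 hl) c lam hlam hc ε hε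
    · exact Pool.Agent.Q255.SG.edge_of_loc
        (Pool.Agent.Q255.SG.loc_of_cont (bf_iff.1 hl) (cont_iff.1 hcont)) hφ hs
  · constructor
    · intro h n τ hτ l hl
      have hc : Continuous fun g => (τ g : Matrix (Fin n) (Fin n) ℂ).trace :=
        (continuous_subtype_val.comp hτ).matrix_trace
      have h1 := h _ hc fun x g => Pool.Agent.Q255.SG.GK.trace_conj τ x g
      rw [mean_eq] at h1
      exact (Pool.Agent.Q255.SG.GK.u_iff (U := fun v => τ (s v)) hS (bf_iff.1 hl) _).1 h1
    · intro h f hf hcl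
      rw [mean_eq]
      refine Pool.Agent.Q255.SG.GK.g_weyl μ S s (fun n τ hτ => ?_) hf hcl
      obtain ⟨l, hl⟩ := Pool.Agent.Q255.SG.GK.u_bdry S (fun v => τ (s v))
      exact (Pool.Agent.Q255.SG.GK.u_iff (U := fun v => τ (s v)) hS hl _).2
        (h n τ hτ l (bf_iff.2 hl))

end Pool.Agent.Results.MP_6dc561_nt.EdgeAsymptotic
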