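import Pool.Agent.Q181.QE.Pure

/-!
# Sato-Tate for abelian surfaces over independent extensions

Let `K` be a number field, `S` a finite set of primes, `G` a compact group with normalised Haar measure
`μ` (the Sato-Tate group `ST_A` of an abelian surface `A/K`) and `s(v)` classes of `G` for `v ∉ S` (the
normalised Frobenius classes of `A`). For an extension `F/K` the classes of `A_F` are
`t(w) = s(v) ^ f(w/v)` for `w` above `v` (base change), and `ST_(A_F) = ST_A` if `F ⊗_K L` is a field, `L/K`
the Galois extension which corresponds to the group of the components of `ST_A`.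

Let `F_i/K` be extensions of degree at most `n` which are pairwise independent: `F_i ⊗_K F_j` is a domain
(a field) for `i ≠ j`. For a continuous class function `f` with `|f - ∫ f dμ| ≤ 1` let `M_i(x)` and `M(x)` be
the means of `f` over the primes of norm at most `x` of `F_i` and of `K`.

1. (Bessel's inequality, without any hypothesis) For finitely many `F_i` and every `ε > 0`, for all
large `x`, uniformly in `s` and `f`: `∑_i |M_i(x) - M(x)|² ≤ n - 1 + ε`.
2. For a sequence `F_0, F_1, ...` equivalent: (a) the classes `s(v)` are equidistributed; (b) for all `f`,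
`ε` and `J`: `∑_(i < J) |M_i(x) - ∫ f dμ|² ≤ n - 1 + ε` for all large `x`; (c) for all `f` and `ε` there are
arbitrarily large `J` with `∑_(i < J) |M_i(x) - ∫ f dμ|² ≤ ε J` for all large `x`.
3. If for some `m` there are infinitely many primes `q` such that the classes are equidistributed
over `F = K(a)` for some `a` with `a ^ m = -q`, then they are equidistributed over `K`.
4. If the classes are equidistributed over all totally complex fields `F ⊇ K` with `N ∣ [F : K]` and
`F ⊗_K L` a field, for one number field `L ⊇ K` and one `N`, they are equidistributed over `K`.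

So the conjecture is true if it is true for all abelian surfaces over totally complex number
fields whose degree is divisible by `N`, for one (arbitrary) `N`.

Proof. The number `e_i(v)` of the primes of degree one of `F_i` above `v` has mean `1`, `e_i e_j` has mean
`1` for `i ≠ j` (this number belongs to the compositum), and `e_i² ≤ n e_i` for almost all `v`. So the
functions `e_i - 1` are orthogonal in the limit, with squares of mean at most `n - 1`, and
`M_i - M` is the mean of `f(s(v)) (e_i(v) - 1)` up to `o(1)`. For 3. and 4. the polynomials `X ^ m + q` are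
irreducible over a given field for almost all primes `q`, by Eisenstein's criterion.
-/

set_option autoImplicit false

namespace Pool.Agent.Results.MP_6dc561_nt.IndependentExtensions

open Filter Topology MeasureTheory NumberField IsDedekindDomain TensorProduct IntermediateField

section Definitions
variable {K : Type} [Field K] [NumberField K]

/-- The norm `q_v` of the prime `v`. -/
noncomputable def placeNorm (v : HeightOneSpectrum (𝓞 K)) : ℕ := Ideal.absNorm v.asIdeal

/-- The number of the primes `v ∉ S` with `q_v ≤ x`. -/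
noncomputable def count (S : Set (HeightOneSpectrum (𝓞 K))) (x : ℕ) : ℕ :=
  Nat.card {v : HeightOneSpectrum (𝓞 K) // placeNorm v ≤ x ∧ v ∉ S}

/-- The mean of `f(v)` over the primes `v ∉ S` with `q_v ≤ x`. -/
noncomputable def mean (S : Set (HeightOneSpectrum (𝓞 K))) (f : HeightOneSpectrum (𝓞 K) → ℂ)
    (x : ℕ) : ℂ :=
  (∑ᶠ v ∈ {v : HeightOneSpectrum (𝓞 K) | placeNorm v ≤ x ∧ v ∉ S}, f v) / (count S x : ℂ)

variable (F : Type) [Field F] [NumberField F] [Algebra K F]

/-- The primes of `F` above the primes of `S`. -/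
def above (S : Set (HeightOneSpectrum (𝓞 K))) : Set (HeightOneSpectrum (𝓞 F)) :=
  {w | w.under (𝓞 K) ∈ S}

variable {G : Type} [Group G]

/-- The base change of the classes `s(v)` to `F`: the class of a prime `w` of `F` above `v` is
`s(v) ^ f(w/v)`, with the residue degree `f(w/v)`. -/
noncomputable def baseChange (s : HeightOneSpectrum (𝓞 K) → G) (w : HeightOneSpectrum (𝓞 F)) : G :=
  s (w.under (𝓞 K)) ^ w.asIdeal.inertiaDeg (𝓞 K)

variable [TopologicalSpace G] [MeasurableSpace G]

/-- The classes `s(v)`, `v ∉ S`, are equidistributed for the image of `μ` in the space of the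
conjugacy classes of `G`: for every continuous class function `f` the means of `f(s(v))` over the
primes with `q_v ≤ x` tend to the integral of `f`. -/
def Equidistributed (μ : Measure G) (S : Set (HeightOneSpectrum (𝓞 K)))
    (s : HeightOneSpectrum (𝓞 K) → G) : Prop :=
  ∀ f : G → ℂ, Continuous f → (∀ x g, f (g⁻¹ * x * g) = f x) →
    Tendsto (mean S fun v => f (s v)) atTop (𝓝 (∫ g, f g ∂μ))

/-- `f` is a continuous class function with `|f - ∫ f dμ| ≤ 1`. -/
def IsTest (μ : Measure G) (f : G → ℂ) : Prop :=
  Continuous f ∧ (∀ x g, f (g⁻¹ * x * g) = f x) ∧ ∀ y, ‖f y - ∫ g, f g ∂μ‖ ≤ 1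

end Definitions

/-! ## Translation -/

section Translation
variable {K : Type} [Field K] [NumberField K]

theorem mean_eq (S : Set (HeightOneSpectrum (𝓞 K))) (f : HeightOneSpectrum (𝓞 K) → ℂ) (x : ℕ) :
    mean S f x = Pool.Agent.Q255.SG.GK.gmean S f x := by
  have h1 : {v : HeightOneSpectrum (𝓞 K) | placeNorm v ≤ x ∧ v ∉ S} =
      ((Pool.Agent.Q255.SG.GK.GF S x : Finset _) : Set (HeightOneSpectrum (𝓞 K))) := by
    ext v
    rw [Finset.mem_coe, Pool.Agent.Q255.SG.GK.mem_GF]
    rfl
  have h2 : count S x = (Pool.Agent.Q255.SG.GK.GF S x).card := by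
    have h3 : count S x = Set.ncard {v : HeightOneSpectrum (𝓞 K) | placeNorm v ≤ x ∧ v ∉ S} := rfl
    rw [h3, h1, Set.ncard_coe_finset]
  unfold mean Pool.Agent.Q255.SG.GK.gmean
  rw [h2, h1, finsum_mem_coe_finset]

variable {G : Type} [Group G] [TopologicalSpace G] [MeasurableSpace G]

theorem equi_iff (μ : Measure G) (S : Set (HeightOneSpectrum (𝓞 K)))
    (s : HeightOneSpectrum (𝓞 K) → G) : Equidistributed μ S s ↔ Pool.Agent.Q181.QE.Equi μ S s := by
  unfold Equidistributed Pool.Agent.Q181.QE.Equi
  have h1 : ∀ f : G → ℂ, mean S (fun v => f (s v)) =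
      Pool.Agent.Q255.SG.GK.gmean S fun v => f (s v) := fun f => funext fun x => mean_eq _ _ _
  simp only [h1]

end Translation

/-- **Sato-Tate over independent extensions.** Let `K` be a number field, `S` a finite set of primes,
`G` a compact group with normalised Haar measure `μ`. For `s : primes → G`, a continuous class function `f`
with `|f - ∫ f dμ| ≤ 1` and an extension `F` of `K` let `M_F(x)` be the mean of `f` over the base change of `s`
to `F`, over the primes of norm at most `x` not above `S`, and `M(x)` the mean over `K`.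

1. For finitely many `F_i` of degree at most `n` with `F_i ⊗_K F_j` a domain for `i ≠ j` and every `ε > 0`:
for all large `x`, for all `s` and `f`, `∑_i |M_(F_i)(x) - M(x)|² ≤ n - 1 + ε`.
2. For a sequence of such `F_i` are equivalent: `s` is equidistributed; for all `f`, `ε` and `J`,
`∑_(i < J) |M_(F_i)(x) - ∫ f dμ|² ≤ n - 1 + ε` for all large `x`; for all `f`, `ε` and `J₀` there is a
`J ≥ J₀` with `∑_(i < J) |M_(F_i)(x) - ∫ f dμ|² ≤ ε J` for all large `x`.
3. If for some `m > 0` there are infinitely many primes `q` such that the base change of `s` to some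
`F = K(a)` with `a ^ m = -q` is equidistributed, then `s` is equidistributed.
4. Let `N > 0` and let `L` be a number field which contains `K`. If the base change of `s` is
equidistributed for all totally complex number fields `F` which contain `K` and such that `N` divides
`[F : K]` and `L ⊗_K F` is a domain, then `s` is equidistributed. -/
theorem result {K : Type} [Field K] [NumberField K] (S : Set (HeightOneSpectrum (𝓞 K)))
    (hS : S.Finite) {G : Type} [Group G] [TopologicalSpace G] [IsTopologicalGroup G] [CompactSpace G]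
    [T2Space G] [MeasurableSpace G] [BorelSpace G] (μ : Measure G) [μ.IsHaarMeasure]
    [IsProbabilityMeasure μ] :
    (∀ (n : ℕ) (ι : Type) [Fintype ι] (F : ι → Type) [∀ i, Field (F i)] [∀ i, NumberField (F i)]
      [∀ i, Algebra K (F i)], 1 ≤ n → (∀ i, Module.finrank K (F i) ≤ n) →
      (∀ i j, i ≠ j → IsDomain (F i ⊗[K] F j)) → ∀ ε : ℝ, 0 < ε → ∀ᶠ x : ℕ in atTop,
      ∀ (s : HeightOneSpectrum (𝓞 K) → G) (f : G → ℂ), IsTest μ f →
        ∑ i, ‖mean (above (F i) S) (fun w => f (baseChange (F i) s w)) x -
          mean S (fun v => f (s v)) x‖ ^ 2 ≤ n - 1 + ε) ∧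
    (∀ (n : ℕ) (F : ℕ → Type) [∀ i, Field (F i)] [∀ i, NumberField (F i)] [∀ i, Algebra K (F i)],
      (∀ i, Module.finrank K (F i) ≤ n) → (∀ i j, i ≠ j → IsDomain (F i ⊗[K] F j)) →
      ∀ s : HeightOneSpectrum (𝓞 K) → G, List.TFAE [Equidistributed μ S s,
        ∀ f : G → ℂ, IsTest μ f → ∀ ε : ℝ, 0 < ε → ∀ J : ℕ, ∀ᶠ x : ℕ in atTop,
          ∑ i ∈ Finset.range J, ‖mean (above (F i) S) (fun w => f (baseChange (F i) s w)) x -
            ∫ g, f g ∂μ‖ ^ 2 ≤ n - 1 + ε,
        ∀ f : G → ℂ, IsTest μ f → ∀ ε : ℝ, 0 < ε → ∀ J₀ : ℕ, ∃ J, J₀ ≤ J ∧ ∀ᶠ x : ℕ in atTop,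
          ∑ i ∈ Finset.range J, ‖mean (above (F i) S) (fun w => f (baseChange (F i) s w)) x -
            ∫ g, f g ∂μ‖ ^ 2 ≤ ε * J]) ∧
    (∀ (s : HeightOneSpectrum (𝓞 K) → G) (m : ℕ), 0 < m →
      (∀ Q : ℕ, ∃ q : ℕ, Q ≤ q ∧ q.Prime ∧ ∃ (F : Type) (_ : Field F) (_ : NumberField F)
        (_ : Algebra K F) (a : F), a ^ m = -(q : F) ∧ K⟮a⟯ = ⊤ ∧
          Equidistributed μ (above F S) (baseChange F s)) →
      Equidistributed μ S s) ∧
    ∀ (s : HeightOneSpectrum (𝓞 K) → G) (N : ℕ), 0 < N →
      ∀ (L : Type) [Field L] [NumberField L] [Algebra K L],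
      (∀ (F : Type) [Field F] [NumberField F] [Algebra K F], IsTotallyComplex F →
        N ∣ Module.finrank K F → IsDomain (L ⊗[K] F) →
          Equidistributed μ (above F S) (baseChange F s)) →
      Equidistributed μ S s := by
  classical
  refine ⟨?_, ?_, ?_, ?_⟩
  · intro n ι _ F _ _ _ hn1 hn hD ε hε
    have h1 := Pool.Agent.Q181.QE.bessel_class μ F hn1 hn Finset.univ
      (fun i _ j _ hij => Or.inl (by
        have := hD i j hij
        exact Pool.Agent.Q181.QE.mix_of_domain this)) hS hε
    filter_upwards [h1] with x hx s f hf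
    simp only [mean_eq]
    exact hx s f hf.2.2
  · intro n F _ _ _ hn hD s
    have h1 := Pool.Agent.Q181.QE.tfae_seq μ F hn (fun i j hij => Or.inl (by
        have := hD i j hij
        exact Pool.Agent.Q181.QE.mix_of_domain this)) hS s
    simp only [mean_eq]
    tfae_have 1 → 2 := by
      intro h f hf
      have h2 := (h1.out 0 1).1 ((equi_iff μ S s).1 h)
      exact h2 f hf.1 hf.2.1 hf.2.2
    tfae_have 2 → 3 := by
      intro h f hf
      have h2 := (h1.out 1 2).1 (fun f h1 h2 h3 => h f ⟨h1, h2, h3⟩)
      exact h2 f hf.1 hf.2.1 hf.2.2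
    tfae_have 3 → 1 := by
      intro h
      exact (equi_iff μ S s).2 ((h1.out 2 0).1 (fun f h1 h2 h3 => h f ⟨h1, h2, h3⟩))
    tfae_finish
  · intro s m hm h
    rw [equi_iff]
    refine Pool.Agent.Q181.QE.equi_pure μ hS s hm fun Q => ?_
    obtain ⟨q, hq, hqp, F, _, _, _, a, ha, hK, hE⟩ := h Q
    exact ⟨q, hq, hqp, F, inferInstance, inferInstance, inferInstance, a, ha, hK,
      (equi_iff μ _ _).1 hE⟩
  · intro s N hN L _ _ _ h
    rw [equi_iff]
    exact Pool.Agent.Q181.QE.equi_complex μ hS s hN L fun F _ _ _ hT hd hD =>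
      (equi_iff μ _ _).1 (h F hT hd hD)

end Pool.Agent.Results.MP_6dc561_nt.IndependentExtensions
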