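import Pool.Agent.Q181.UC.Cx
import Pool.Agent.Q181.UC.Weyl

/-!
# Sato-Tate for abelian surfaces in random unions of residue classes of the norms

Let `F` be a number field, `G` a compact group with normalised Haar measure `μ` (the Sato-Tate group
`ST_A` of an abelian surface `A/F`), `S` a finite set of primes and `s(v)` classes of `G` for `v ∉ S`
(the normalised Frobenius classes of `A`).  For a continuous class function `f` and a set `A` of reduced
residues modulo `P` let `dev f P A x` be the sum of `f(s(v)) - ∫ f dμ` over the `v ∉ S` with `q_v ≤ x` and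
`q_v mod P ∈ A`, divided by the number of all `v ∉ S` with `q_v ≤ x`.

1. (zero-one law) If the mean of one `f`, over all primes or over the primes with norm in a union of
classes modulo `q`, is wrong infinitely often by at least `c`, then for every `P` (every multiple `P` of
`q`) at most `C [F : ℚ] (1 + 1 / c) 2 ^ φ(P) / √φ(P)` of the `2 ^ φ(P)` sets `A` are good for `f`.
2. (typical unions, without any hypothesis) For every `P` and all large `x`, for all `s` and `f`, all but
`2 ^ φ(P) / t ^ 2` of the sets `A` have `‖dev_A - dev / 2‖ < t C [F : ℚ] / √φ(P)`.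
3. If for every continuous unitary representation `τ` of `G` and every `K` some `P` has at least
`K 2 ^ φ(P) / √φ(P)` sets which are good for `tr τ`, the classes are equidistributed.
4. Equidistribution in all single classes is equivalent to the existence of so many good sets for
multiples `P` of every `q`, for each `tr τ` separately or for all `f` simultaneously.
-/

set_option autoImplicit false

namespace Pool.Agent.Results.MP_6dc561_nt.UnionsOfClasses

open Filter Topology MeasureTheory NumberField IsDedekindDomain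

section Definitions
variable {F : Type} [Field F] [NumberField F]

/-- The norm `q_v` of the prime `v`. -/
noncomputable def placeNorm (v : HeightOneSpectrum (𝓞 F)) : ℕ := Ideal.absNorm v.asIdeal

/-- The number of the primes `v ∉ S` with `q_v ≤ x`. -/
noncomputable def count (S : Set (HeightOneSpectrum (𝓞 F))) (x : ℕ) : ℕ :=
  Nat.card {v : HeightOneSpectrum (𝓞 F) // placeNorm v ≤ x ∧ v ∉ S}

/-- The mean of `f(v)` over the primes `v ∉ S` with `q_v ≤ x`. -/
noncomputable def mean (S : Set (HeightOneSpectrum (𝓞 F))) (f : HeightOneSpectrum (𝓞 F) → ℂ)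
    (x : ℕ) : ℂ :=
  (∑ᶠ v ∈ {v : HeightOneSpectrum (𝓞 F) | placeNorm v ≤ x ∧ v ∉ S}, f v) / (count S x : ℂ)

/-- The residues `a < P` coprime to `P`; there are `φ(P)` of them. -/
def reduced (P : ℕ) : Finset ℕ := (Finset.range P).filter (fun a => P.Coprime a)

variable {G : Type} [Group G] [TopologicalSpace G] [MeasurableSpace G]

/-- The sum of `f(s(v)) - ∫ f dμ` over the `v ∉ S` with `q_v ≤ x` and `q_v mod P ∈ A`, divided by the
number of all `v ∉ S` with `q_v ≤ x`. -/
noncomputable def dev (μ : Measure G) (S : Set (HeightOneSpectrum (𝓞 F)))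
    (s : HeightOneSpectrum (𝓞 F) → G) (f : G → ℂ) (P : ℕ) (A : Finset ℕ) (x : ℕ) : ℂ :=
  (∑ᶠ v ∈ {v : HeightOneSpectrum (𝓞 F) | placeNorm v ≤ x ∧ v ∉ S ∧ placeNorm v % P ∈ A},
    (f (s v) - ∫ g, f g ∂μ)) / (count S x : ℂ)

/-- The classes `s(v)`, `v ∉ S`, are equidistributed for the image of `μ` in the space of the
conjugacy classes of `G`: for every continuous class function `f` the means of `f(s(v))` over the
primes with `q_v ≤ x` tend to the integral of `f`. -/
def Equidistributed (μ : Measure G) (S : Set (HeightOneSpectrum (𝓞 F)))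
    (s : HeightOneSpectrum (𝓞 F) → G) : Prop :=
  ∀ f : G → ℂ, Continuous f → (∀ x g, f (g⁻¹ * x * g) = f x) →
    Tendsto (mean S fun v => f (s v)) atTop (𝓝 (∫ g, f g ∂μ))

/-- The set `A` of residues modulo `P` is good: for every continuous class function `f` the sum of
`f(s(v)) - ∫ f dμ` over the primes with `q_v ≤ x` and `q_v mod P ∈ A` is `o(x / log x)`. -/
def Good (μ : Measure G) (S : Set (HeightOneSpectrum (𝓞 F))) (s : HeightOneSpectrum (𝓞 F) → G)
    (P : ℕ) (A : Finset ℕ) : Prop :=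
  ∀ f : G → ℂ, Continuous f → (∀ x g, f (g⁻¹ * x * g) = f x) →
    Tendsto (dev μ S s f P A) atTop (𝓝 0)

open Classical in
/-- The number of the sets `A` of reduced residues modulo `P` which are good for `f`: the sum of
`f(s(v)) - ∫ f dμ` over the primes with `q_v ≤ x` and `q_v mod P ∈ A` is `o(x / log x)`. -/
noncomputable def goodFor (μ : Measure G) (S : Set (HeightOneSpectrum (𝓞 F)))
    (s : HeightOneSpectrum (𝓞 F) → G) (f : G → ℂ) (P : ℕ) : ℕ :=
  ((reduced P).powerset.filter (fun A => Tendsto (dev μ S s f P A) atTop (𝓝 0))).card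

/-- The trace of a unitary representation. -/
noncomputable def tr {n : ℕ} (τ : G →* Matrix.unitaryGroup (Fin n) ℂ) (g : G) : ℂ :=
  (τ g : Matrix (Fin n) (Fin n) ℂ).trace

open Classical in
/-- The number of the good sets of reduced residues modulo `P`. -/
noncomputable def good (μ : Measure G) (S : Set (HeightOneSpectrum (𝓞 F)))
    (s : HeightOneSpectrum (𝓞 F) → G) (P : ℕ) : ℕ :=
  ((reduced P).powerset.filter (fun A => Good μ S s P A)).card

end Definitions

/-! ## Translation -/

section Translation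
variable {F : Type} [Field F] [NumberField F]

theorem count_eq (S : Set (HeightOneSpectrum (𝓞 F))) (x : ℕ) :
    count S x = (Pool.Agent.Q255.SG.GK.GF S x).card := by
  have h1 : {v : HeightOneSpectrum (𝓞 F) | placeNorm v ≤ x ∧ v ∉ S} =
      ((Pool.Agent.Q255.SG.GK.GF S x : Finset _) : Set (HeightOneSpectrum (𝓞 F))) := by
    ext v
    rw [Finset.mem_coe, Pool.Agent.Q255.SG.GK.mem_GF]
    rfl
  have h2 : count S x = Set.ncard {v : HeightOneSpectrum (𝓞 F) | placeNorm v ≤ x ∧ v ∉ S} := rfl
  rw [h2, h1, Set.ncard_coe_finset]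

variable {G : Type} [Group G] [TopologicalSpace G] [MeasurableSpace G]

theorem dev_eq (μ : Measure G) (S : Set (HeightOneSpectrum (𝓞 F)))
    (s : HeightOneSpectrum (𝓞 F) → G) (f : G → ℂ) (P : ℕ) (A : Finset ℕ) :
    dev μ S s f P A = Pool.Agent.Q181.UC.dvc S (fun v => f (s v) - ∫ g, f g ∂μ) P A := by
  classical
  funext x
  unfold dev Pool.Agent.Q181.UC.dvc
  rw [count_eq]
  congr 1
  have h1 : {v : HeightOneSpectrum (𝓞 F) | placeNorm v ≤ x ∧ v ∉ S ∧ placeNorm v % P ∈ A} =
      (((Pool.Agent.Q255.SG.GK.GF S x).filter (fun v =>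
        Pool.Agent.H921R2.TatePole.nm v % P ∈ A) : Finset _) : Set (HeightOneSpectrum (𝓞 F))) := by
    ext v
    rw [Finset.mem_coe, Finset.mem_filter, Pool.Agent.Q255.SG.GK.mem_GF]
    exact ⟨fun h => ⟨⟨h.1, h.2.1⟩, h.2.2⟩, fun h => ⟨h.1.1, h.1.2, h.2⟩⟩
  rw [finsum_mem_congr h1 (fun _ _ => rfl), finsum_mem_coe_finset]

theorem mean_sub (μ : Measure G) {S : Set (HeightOneSpectrum (𝓞 F))} (hS : S.Finite)
    (s : HeightOneSpectrum (𝓞 F) → G) (f : G → ℂ) : ∀ᶠ x : ℕ in atTop,
      mean S (fun v => f (s v)) x - ∫ g, f g ∂μ = dev μ S s f 1 {0} x := by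
  classical
  have h1 := (Pool.Agent.Q181.UC.rho_tendsto hS).eventually_ne one_ne_zero
  filter_upwards [h1] with x hx
  have hc : ((Pool.Agent.Q255.SG.GK.GF S x).card : ℂ) ≠ 0 := by
    intro h0
    apply hx
    unfold Pool.Agent.Q181.UC.rho
    have : ((Pool.Agent.Q255.SG.GK.GF S x).card : ℝ) = 0 := by exact_mod_cast h0
    rw [this, div_zero]
  have h2 : {v : HeightOneSpectrum (𝓞 F) | placeNorm v ≤ x ∧ v ∉ S} =
      ((Pool.Agent.Q255.SG.GK.GF S x : Finset _) : Set (HeightOneSpectrum (𝓞 F))) := by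
    ext v
    rw [Finset.mem_coe, Pool.Agent.Q255.SG.GK.mem_GF]
    rfl
  rw [dev_eq]
  unfold mean Pool.Agent.Q181.UC.dvc
  rw [finsum_mem_congr h2 (fun _ _ => rfl), finsum_mem_coe_finset, count_eq,
    Finset.filter_true_of_mem (fun v _ => by rw [Finset.mem_singleton, Nat.mod_one]),
    Finset.sum_sub_distrib, Finset.sum_const, nsmul_eq_mul, sub_div, mul_div_cancel_left₀ _ hc]

end Translation

/-! ## The test functions of norm at most one -/

section Family
variable {F : Type} [Field F] [NumberField F] {G : Type} [Group G] [TopologicalSpace G]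
  [CompactSpace G] [MeasurableSpace G]

/-- the continuous class functions with distance at most one from their mean -/
def Idx (μ : Measure G) : Type :=
  {f : G → ℂ // Continuous f ∧ (∀ x g, f (g⁻¹ * x * g) = f x) ∧ ∀ y, ‖f y - ∫ g, f g ∂μ‖ ≤ 1}

/-- the functions on the primes -/
noncomputable def fu (μ : Measure G) (s : HeightOneSpectrum (𝓞 F) → G) (i : Idx μ)
    (v : HeightOneSpectrum (𝓞 F)) : ℂ := i.1 (s v) - ∫ g, i.1 g ∂μ

theorem fu_le (μ : Measure G) (s : HeightOneSpectrum (𝓞 F) → G) (i : Idx μ)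
    (v : HeightOneSpectrum (𝓞 F)) : ‖fu μ s i v‖ ≤ 1 := i.2.2.2 _

theorem good_iff (μ : Measure G) (S : Set (HeightOneSpectrum (𝓞 F)))
    (s : HeightOneSpectrum (𝓞 F) → G) (P : ℕ) (A : Finset ℕ) :
    Good μ S s P A ↔ ∀ i, Tendsto (Pool.Agent.Q181.UC.dvc S (fu μ s i) P A) atTop (𝓝 0) := by
  constructor
  · intro h i
    have := h i.1 i.2.1 i.2.2.1
    rw [dev_eq] at this
    exact this
  · intro h f hf hcl
    obtain ⟨M, hM⟩ : ∃ M : ℝ, ∀ y, ‖f y - ∫ g, f g ∂μ‖ ≤ M := by
      have hc : Continuous fun y => ‖f y - ∫ g, f g ∂μ‖ := (hf.sub continuous_const).norm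
      obtain ⟨M, hM⟩ := (isCompact_range hc).bddAbove
      exact ⟨M, fun y => hM ⟨y, rfl⟩⟩
    have hK : 0 < |M| + 1 := by positivity
    obtain ⟨k, hk⟩ : ∃ k : ℂ, k = ((|M| + 1 : ℝ) : ℂ) := ⟨_, rfl⟩
    have hk0 : k ≠ 0 := by
      rw [hk]
      exact_mod_cast hK.ne'
    have hint : ∫ g, k⁻¹ * f g ∂μ = k⁻¹ * ∫ g, f g ∂μ := integral_const_mul _ _
    have hi : ∀ y, ‖k⁻¹ * f y - ∫ g, k⁻¹ * f g ∂μ‖ ≤ 1 := by
      intro y
      rw [hint, ← mul_sub, norm_mul, norm_inv, hk, Complex.norm_real, Real.norm_of_nonneg hK.le,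
        inv_mul_le_one₀ hK]
      have := hM y
      have := le_abs_self M
      linarith
    have h1 := h ⟨fun y => k⁻¹ * f y, continuous_const.mul hf, fun x g => congrArg (fun z => k⁻¹ * z) (hcl x g), hi⟩
    have h2 := h1.const_mul k
    rw [mul_zero] at h2
    rw [dev_eq]
    refine h2.congr fun x => ?_
    unfold Pool.Agent.Q181.UC.dvc fu
    rw [← mul_div_assoc, Finset.mul_sum]
    congr 1
    refine Finset.sum_congr rfl fun v _ => ?_
    dsimp only
    rw [hint]
    field_simp

theorem good_card (μ : Measure G) {S : Set (HeightOneSpectrum (𝓞 F))} (hS : S.Finite)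
    (s : HeightOneSpectrum (𝓞 F) → G) (P : ℕ) :
    Q197.PS.nF (Pool.Agent.Q181.UC.fam S (fu μ s)) P = good μ S s P := by
  classical
  unfold Q197.PS.nF good
  congr 1
  ext A
  rw [Finset.mem_filter, Finset.mem_filter, good_iff, Pool.Agent.Q181.UC.good_fam hS (fu_le μ s)]
  rfl

end Family

section Traces
variable {F : Type} [Field F] [NumberField F] {G : Type} [Group G] [TopologicalSpace G]
  [IsTopologicalGroup G] [CompactSpace G] [T2Space G] [MeasurableSpace G] [BorelSpace G]
  (μ : Measure G) [IsProbabilityMeasure μ]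

theorem goodFor_eq (S : Set (HeightOneSpectrum (𝓞 F))) (s : HeightOneSpectrum (𝓞 F) → G) (f : G → ℂ)
    (P : ℕ) : goodFor μ S s f P = Pool.Agent.Q181.UC.cnt S (fun v => f (s v) - ∫ g, f g ∂μ) P := by
  classical
  unfold goodFor Pool.Agent.Q181.UC.cnt
  simp only [dev_eq]
  rfl

theorem test_le {f : G → ℂ} (hf : Continuous f) (s : HeightOneSpectrum (𝓞 F) → G) :
    ∃ M : ℝ, ∀ v, ‖f (s v) - ∫ g, f g ∂μ‖ ≤ M := by
  have hc : Continuous fun y => ‖f y - ∫ g, f g ∂μ‖ := (hf.sub continuous_const).norm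
  obtain ⟨M, hM⟩ := (isCompact_range hc).bddAbove
  exact ⟨M, fun v => hM ⟨s v, rfl⟩⟩

theorem tr_cont {n : ℕ} {τ : G →* Matrix.unitaryGroup (Fin n) ℂ} (hτ : Continuous τ) :
    Continuous (tr τ) := (continuous_subtype_val.comp hτ).matrix_trace

theorem tr_class {n : ℕ} (τ : G →* Matrix.unitaryGroup (Fin n) ℂ) (x g : G) :
    tr τ (g⁻¹ * x * g) = tr τ x := Pool.Agent.Q255.SG.GK.trace_conj τ x g

/-- the traces suffice -/
theorem good_of_tr [μ.IsMulLeftInvariant] {S : Set (HeightOneSpectrum (𝓞 F))}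
    {s : HeightOneSpectrum (𝓞 F) → G} {P : ℕ} {A : Finset ℕ}
    (h : ∀ (n : ℕ) (τ : G →* Matrix.unitaryGroup (Fin n) ℂ), Continuous τ →
      Tendsto (dev μ S s (tr τ) P A) atTop (𝓝 0)) : Good μ S s P A := by
  classical
  intro f hf hcl
  refine Pool.Agent.Q181.UC.weyl0 μ (fun x f => dev μ S s f P A x) ?_ ?_ ?_ ?_ hf hcl
  · intro x f g hf hg
    simp only [dev_eq]
    unfold Pool.Agent.Q181.UC.dvc
    rw [← add_div, ← Finset.sum_add_distrib]
    congr 1
    refine Finset.sum_congr rfl fun v _ => ?_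
    have h1 : ∫ y, (f + g) y ∂μ = ∫ y, f y ∂μ + ∫ y, g y ∂μ :=
      integral_add (Pool.Agent.Q255.SG.CG.int_cont μ hf) (Pool.Agent.Q255.SG.CG.int_cont μ hg)
    rw [h1]
    show (f (s v) + g (s v)) - (∫ y, f y ∂μ + ∫ y, g y ∂μ) = _
    ring
  · intro x c f hf
    simp only [dev_eq]
    unfold Pool.Agent.Q181.UC.dvc
    rw [← mul_div_assoc, Finset.mul_sum]
    congr 1
    refine Finset.sum_congr rfl fun v _ => ?_
    have h1 : ∫ y, (c • f) y ∂μ = c * ∫ y, f y ∂μ := integral_const_mul _ _
    rw [h1]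
    show c * f (s v) - c * ∫ y, f y ∂μ = _
    ring
  · intro x f B hB _ hfB
    simp only [dev_eq]
    unfold Pool.Agent.Q181.UC.dvc
    rw [norm_div, Complex.norm_natCast]
    have hint : ‖∫ g, f g ∂μ‖ ≤ B := by
      refine (norm_integral_le_of_norm_le_const (C := B) (Eventually.of_forall hfB)).trans ?_
      simp
    rcases Nat.eq_zero_or_pos (Pool.Agent.Q255.SG.GK.GF S x).card with h0 | h0
    · rw [h0]
      simp [hB]
    · rw [div_le_iff₀ (by exact_mod_cast h0)]
      refine (norm_sum_le_of_le (n := fun _ => 2 * B) _ fun v _ => ?_).trans ?_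
      · refine (norm_sub_le _ _).trans ?_
        have := hfB (s v)
        linarith
      · rw [Finset.sum_const, nsmul_eq_mul, mul_comm]
        refine mul_le_mul_of_nonneg_left ?_ (by linarith)
        exact_mod_cast Finset.card_filter_le _ _
  · rintro f ⟨n, τ, hτ, hfτ⟩
    have h1 : f = tr τ := funext hfτ
    rw [h1]
    exact h n τ hτ

end Traces

/-- **Sato-Tate in random unions of residue classes.**  There is an absolute constant `C` such that for
every number field `F`, every finite set `S` of primes, every compact group `G` with normalised Haar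
measure `μ` and all classes `s(v)` (for an abelian surface `A/F`: `G = ST_A`, `S` the primes of bad
reduction and above `ℓ`, `s(v)` the Frobenius classes):

1. if `f` is a continuous class function with `|f - ∫ f dμ| ≤ 1` and the mean of `f(s(v))` over `q_v ≤ x`
is at distance at least `c > 0` from `∫ f dμ` for infinitely many `x`, then for every `P` at most
`C [F : ℚ] (1 + 1 / c) 2 ^ φ(P) / √φ(P)` of the `2 ^ φ(P)` sets `A` of reduced residues modulo `P` satisfy
`dev f P A → 0`; the same for all multiples `P` of `q` if `‖dev f q B‖ ≥ c` for infinitely many `x`, for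
some set `B` of residues modulo `q`;
2. for every `P` and all large `x`: for all `s` and `f` and all `t > 0`, all but `2 ^ φ(P) / t ^ 2` of the
sets `A` satisfy `‖dev f P A x - dev f 1 {0} x / 2‖ < t C [F : ℚ] / √φ(P)`, where `dev f 1 {0} x` is the mean of
`f(s(v))` over `q_v ≤ x` minus `∫ f dμ`;
3. if for every continuous unitary representation `τ` of `G` and every `K` there is a `P` with at least
`K 2 ^ φ(P) / √φ(P)` sets `A` which are good for `tr τ`, then the classes `s(v)` are equidistributed;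
4. the following are equivalent: all single reduced classes of all moduli are good; for all `q` and `K`
there is a multiple `P` of `q` with at least `K 2 ^ φ(P) / √φ(P)` good sets; for all `τ`, `q` and `K` there is a
multiple `P` of `q` with at least `K 2 ^ φ(P) / √φ(P)` sets which are good for `tr τ`. -/
theorem result : ∃ C : ℝ, 1 ≤ C ∧ ∀ (F : Type) [Field F] [NumberField F]
    (S : Set (HeightOneSpectrum (𝓞 F))) (_ : S.Finite)
    (G : Type) [Group G] [TopologicalSpace G] [IsTopologicalGroup G] [CompactSpace G] [T2Space G]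
    [MeasurableSpace G] [BorelSpace G] (μ : Measure G) [μ.IsHaarMeasure] [IsProbabilityMeasure μ],
    (∀ (s : HeightOneSpectrum (𝓞 F) → G) (f : G → ℂ), Continuous f →
      (∀ x g, f (g⁻¹ * x * g) = f x) → (∀ y, ‖f y - ∫ g, f g ∂μ‖ ≤ 1) → ∀ c : ℝ, 0 < c →
      ((∃ᶠ x in atTop, c ≤ ‖mean S (fun v => f (s v)) x - ∫ g, f g ∂μ‖) → ∀ P : ℕ, 0 < P →
        (goodFor μ S s f P : ℝ) ≤
          C * Module.finrank ℚ F * (1 + 1 / c) * 2 ^ P.totient / √P.totient) ∧
      (∀ (q : ℕ) (B : Finset ℕ), (∃ᶠ x in atTop, c ≤ ‖dev μ S s f q B x‖) → ∀ P : ℕ, 0 < P →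
        q ∣ P → (goodFor μ S s f P : ℝ) ≤
          C * Module.finrank ℚ F * (1 + 1 / c) * 2 ^ P.totient / √P.totient)) ∧
    (∀ P : ℕ, 0 < P → ∀ᶠ x : ℕ in atTop, ∀ (s : HeightOneSpectrum (𝓞 F) → G) (f : G → ℂ),
      Continuous f → (∀ x g, f (g⁻¹ * x * g) = f x) → (∀ y, ‖f y - ∫ g, f g ∂μ‖ ≤ 1) →
      ∀ t : ℝ, 0 < t →
        (Nat.card {A : Finset ℕ // A ⊆ reduced P ∧ t * (C * Module.finrank ℚ F) / √P.totient ≤
          ‖dev μ S s f P A x - dev μ S s f 1 {0} x / 2‖} : ℝ) ≤ 2 ^ P.totient / t ^ 2) ∧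
    ∀ s : HeightOneSpectrum (𝓞 F) → G,
      ((∀ (n : ℕ) (τ : G →* Matrix.unitaryGroup (Fin n) ℂ), Continuous τ → ∀ K : ℝ, ∃ P : ℕ, 0 < P ∧
        K * 2 ^ P.totient / √P.totient ≤ goodFor μ S s (tr τ) P) → Equidistributed μ S s) ∧
      List.TFAE [∀ q : ℕ, 0 < q → ∀ a ∈ reduced q, Good μ S s q {a},
        ∀ q : ℕ, 0 < q → ∀ K : ℝ, ∃ P : ℕ, 0 < P ∧ q ∣ P ∧
          K * 2 ^ P.totient / √P.totient ≤ good μ S s P,
        ∀ (n : ℕ) (τ : G →* Matrix.unitaryGroup (Fin n) ℂ), Continuous τ → ∀ q : ℕ, 0 < q →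
          ∀ K : ℝ, ∃ P : ℕ, 0 < P ∧ q ∣ P ∧
            K * 2 ^ P.totient / √P.totient ≤ goodFor μ S s (tr τ) P] := by
  classical
  obtain ⟨C, hC, hpack⟩ := Pool.Agent.Q181.UC.pack
  refine ⟨C, hC, fun F _ _ S hS G _ _ _ _ _ _ _ μ _ _ => ⟨?_, ?_, ?_⟩⟩
  · intro s f hf hcl hle c hc
    constructor
    · intro hfr P hP
      have h1 : ∃ᶠ x in atTop, c ≤ ‖dev μ S s f 1 {0} x‖ := by
        refine (hfr.and_eventually (mean_sub μ hS s f)).mono fun x hx => ?_
        rw [← hx.2]
        exact hx.1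
      rw [dev_eq] at h1
      have h2 := (hpack F S hS).1 _ (fun v => hle (s v)) c hc 1 {0} h1 P hP (one_dvd P)
      rw [goodFor_eq]
      unfold Pool.Agent.Q181.UC.cnt
      exact_mod_cast h2
    · intro q B hfr P hP hd
      rw [dev_eq] at hfr
      have h2 := (hpack F S hS).1 _ (fun v => hle (s v)) c hc q B hfr P hP hd
      rw [goodFor_eq]
      unfold Pool.Agent.Q181.UC.cnt
      exact_mod_cast h2
  · intro P hP
    filter_upwards [(hpack F S hS).2 P hP] with x hx s f hf hcl hle t ht
    have h2 := hx _ (fun v => hle (s v)) t ht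
    refine le_trans (le_of_eq ?_) h2
    congr 1
    rw [← Fintype.card_coe, ← Nat.card_eq_fintype_card]
    refine Nat.card_congr (Equiv.subtypeEquivRight fun A => ?_)
    rw [Finset.mem_filter, Finset.mem_powerset, dev_eq, dev_eq]
    rfl
  · intro s
    have hall : (∀ (n : ℕ) (τ : G →* Matrix.unitaryGroup (Fin n) ℂ), Continuous τ →
        ∀ q : ℕ, 0 < q → ∀ K : ℝ, ∃ P : ℕ, 0 < P ∧ q ∣ P ∧
          K * 2 ^ P.totient / √P.totient ≤ goodFor μ S s (tr τ) P) →
        ∀ q : ℕ, 0 < q → ∀ a ∈ reduced q, Good μ S s q {a} := by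
      intro h q hq a ha
      refine good_of_tr μ fun n τ hτ => ?_
      obtain ⟨M, hM⟩ := test_le μ (tr_cont hτ) s
      have h1 := (Pool.Agent.Q181.UC.one_iff hS hM).2 (fun q hq K => by
        obtain ⟨P, hP, hd, h2⟩ := h n τ hτ q hq K
        refine ⟨P, hP, hd, ?_⟩
        rw [← goodFor_eq]
        exact h2) q hq a ha
      rw [dev_eq]
      exact h1
    constructor
    · intro h f hf hcl
      have h1 : Good μ S s 1 {0} := by
        refine good_of_tr μ fun n τ hτ => ?_
        obtain ⟨M, hM⟩ := test_le μ (tr_cont hτ) s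
        rw [dev_eq]
        refine Pool.Agent.Q181.UC.one_all hS hM fun K => ?_
        obtain ⟨P, hP, h2⟩ := h n τ hτ K
        refine ⟨P, hP, ?_⟩
        rw [← goodFor_eq]
        exact h2
      have h2 := h1 f hf hcl
      have h3 : Tendsto (fun x => mean S (fun v => f (s v)) x - ∫ g, f g ∂μ) atTop (𝓝 0) :=
        h2.congr' (by
          filter_upwards [mean_sub μ hS s f] with x hx
          exact hx.symm)
      have h4 := h3.add_const (∫ g, f g ∂μ)
      rw [zero_add] at h4
      refine h4.congr fun x => ?_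
      ring
    · have h1 := Q197.PS.fam_iff (F := Pool.Agent.Q181.UC.fam S (fu μ s))
        (Pool.Agent.Q181.UC.fam_le (S := S) (fu_le μ s))
      simp only [good_card μ hS s, Pool.Agent.Q181.UC.good_fam hS (fu_le μ s), ← good_iff] at h1
      tfae_have 1 → 2 := h1.1
      tfae_have 2 → 3 := by
        intro h n τ hτ q hq K
        obtain ⟨P, hP, hd, h2⟩ := h q hq K
        refine ⟨P, hP, hd, h2.trans ?_⟩
        have h3 : good μ S s P ≤ goodFor μ S s (tr τ) P := by
          unfold good goodFor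
          apply Finset.card_le_card
          intro A hA
          rw [Finset.mem_filter] at hA ⊢
          exact ⟨hA.1, hA.2 _ (tr_cont hτ) (tr_class τ)⟩
        exact_mod_cast h3
      tfae_have 3 → 1 := hall
      tfae_finish

end Pool.Agent.Results.MP_6dc561_nt.UnionsOfClasses
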